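import Pool.Agent.H12.UT.Targets2

/-!
# MP_8b378c_ag, universal torsors, row DAT: the valuation data of the example
-/

set_option autoImplicit false

open Polynomial
open Pool.Agent.H12.UT

namespace Pool.Agent.H81.UT

/-- order zero and given leading coefficient -/
def Ld {κ : Type} [Field κ] (f : HS κ) (r : κ) : Prop := f.order = 0 ∧ f.leadingCoeff = r

theorem Ld_of {κ : Type} [Field κ] (f : HS κ) (r : κ) (hr : r ≠ 0) (h0 : f.coeff 0 = r)
    (hn : ∀ x : ℝ, x < 0 → f.coeff x = 0) : Ld f r := by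
  have hf : f ≠ 0 := by
    rintro rfl
    apply hr
    rw [← h0]
    rfl
  have h1 : f.orderTop = ((0 : ℝ) : WithTop ℝ) := by
    refine HahnSeries.orderTop_eq_of_le ?_ ?_
    · rw [HahnSeries.mem_support, h0]
      exact hr
    · intro g hg
      by_contra hlt
      push Not at hlt
      exact hg (hn g hlt)
  have h2 : f.order = 0 := by
    have h3 := HahnSeries.order_eq_orderTop_of_ne_zero hf
    rw [h1] at h3
    exact WithTop.coe_injective h3
  refine ⟨h2, ?_⟩
  rw [HahnSeries.leadingCoeff_eq, h2, h0]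

theorem Ld_C {κ : Type} [Field κ] (r : κ) (hr : r ≠ 0) : Ld (HahnSeries.C r : HS κ) r := by
  refine Ld_of _ r hr ?_ ?_
  · rw [HahnSeries.C_apply, HahnSeries.coeff_single_same]
  · intro x hx
    rw [HahnSeries.C_apply, HahnSeries.coeff_single_of_ne hx.ne]

theorem Ld_lin {κ : Type} [Field κ] (r s : κ) (hr : r ≠ 0) :
    Ld (HahnSeries.C r + HahnSeries.single (1 : ℝ) s : HS κ) r := by
  refine Ld_of _ r hr ?_ ?_
  · rw [HahnSeries.coeff_add, HahnSeries.C_apply, HahnSeries.coeff_single_same,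
      HahnSeries.coeff_single_of_ne zero_ne_one, add_zero]
  · intro x hx
    rw [HahnSeries.coeff_add, HahnSeries.C_apply, HahnSeries.coeff_single_of_ne hx.ne,
      HahnSeries.coeff_single_of_ne (hx.trans zero_lt_one).ne, add_zero]

theorem Ld_mul {κ : Type} [Field κ] {f g : HS κ} {r s : κ} (hr : r ≠ 0) (hs : s ≠ 0)
    (hf : Ld f r) (hg : Ld g s) : Ld (f * g) (r * s) := by
  have hf0 : f ≠ 0 := by
    rintro rfl
    apply hr
    rw [← hf.2, HahnSeries.leadingCoeff_zero]
  have hg0 : g ≠ 0 := by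
    rintro rfl
    apply hs
    rw [← hg.2, HahnSeries.leadingCoeff_zero]
  refine ⟨?_, ?_⟩
  · rw [HahnSeries.order_mul hf0 hg0, hf.1, hg.1, add_zero]
  · rw [HahnSeries.leadingCoeff_mul, hf.2, hg.2]

section

variable {κ K : Type} [Field κ] [CharZero κ] [Field K] [Algebra K (HS κ)] (c : κ →+* K) (t : K)
  (a b d m m' : κ)

theorem key (hc : ∀ r, algebraMap K (HS κ) (c r) = HahnSeries.C r)
    (ht : algebraMap K (HS κ) t = HahnSeries.single 1 1) (ha : a ≠ 0) (hb : b ≠ 0) (hd : d ≠ 0)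
    (hm : m ≠ 0) (hm' : m' ≠ 0) (h3 : m + 1 = 2 * d) (h4 : m' + 1 = 2 * a * b * d) (P Q : K[X])
    (hP : P = C (2 * (1 - t)) * X * (X - C t) * (X + 1))
    (hQ : Q = C (c a) * (C (c m) * X + C t) * (C (c m') * X + C t)) :
    GD ![a, b, d, a * b * d, a * m * m'] ![0, t, -t / c m, -t / c m', -1]
      ![Q.eval 0, Q.eval t, P.eval (-t / c m), P.eval (-t / c m'), Q.eval (-1)]
      Q.leadingCoeff := by
  have : CharZero K := charZero_of_injective_ringHom c.injective
  have ht0 : t ≠ 0 := by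
    rintro rfl
    rw [map_zero] at ht
    have h1 := congrArg (fun f : HS κ => f.coeff 1) ht
    simp at h1
  have ca : c a ≠ 0 := (map_ne_zero c).2 ha
  have cb : c b ≠ 0 := (map_ne_zero c).2 hb
  have cd : c d ≠ 0 := (map_ne_zero c).2 hd
  have cm : c m ≠ 0 := (map_ne_zero c).2 hm
  have cm' : c m' ≠ 0 := (map_ne_zero c).2 hm'
  have c2 : c 2 = 2 := map_ofNat c 2
  have c3 : c m + 1 = 2 * c d := by
    have := congrArg c h3
    rwa [map_add, map_mul, map_one, c2] at this
  have c4 : c m' + 1 = 2 * c a * c b * c d := by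
    have := congrArg c h4
    rwa [map_add, map_mul, map_mul, map_mul, map_one, c2] at this
  have h2 : (2 : K) ≠ 0 := two_ne_zero
  have hT : ∀ r : κ, algebraMap K (HS κ) (c r * t) = HahnSeries.single 1 r := by
    intro r
    rw [map_mul, hc, ht, HahnSeries.C_apply, HahnSeries.single_mul_single, zero_add, mul_one]
  have hcT : ∀ r s : κ, algebraMap K (HS κ) (c r + c s * t) =
      HahnSeries.C r + HahnSeries.single 1 s := by
    intro r s
    rw [map_add, hT, hc]
  have hQ0 : Q.eval 0 = c a * t ^ 2 := by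
    rw [hQ]
    simp
    ring
  have hQt : Q.eval t = (2 * c a * c d * t) ^ 2 * c b := by
    have h5 : Q.eval t = c a * ((c m + 1) * t) * ((c m' + 1) * t) := by
      rw [hQ]
      simp
      ring
    rw [h5, c3, c4]
    ring
  have hPe : ∀ e : K, P.eval e = 2 * (1 - t) * e * (e - t) * (e + 1) := by
    intro e
    rw [hP]
    simp
  have hQ1 : Q.eval (-1) = c a * (c (-m) + c 1 * t) * (c (-m') + c 1 * t) := by
    rw [hQ]
    simp
  have hQl : Q.leadingCoeff = c (a * m * m') := by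
    rw [hQ, leadingCoeff_mul, leadingCoeff_mul, leadingCoeff_C, leadingCoeff_linear cm,
      leadingCoeff_linear cm', map_mul, map_mul]
  have hlin1 : (1 - t : K) = c 1 + c (-1) * t := by simp; ring
  have hone : (1 : κ) ≠ 0 := one_ne_zero
  refine ⟨?_, rfl, ?_, ?_⟩
  · intro i hi
    have h1 : algebraMap K (HS κ) (0 : K) = 0 ∨ 0 < (algebraMap K (HS κ) (0 : K)).order :=
      Or.inl (map_zero _)
    have hs : ∀ r : κ, r ≠ 0 → 0 < (HahnSeries.single (1 : ℝ) r : HS κ).order := by
      intro r hr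
      rw [HahnSeries.order_single hr]
      exact one_pos
    have h5 : ∀ r : κ, r ≠ 0 → algebraMap K (HS κ) (-t / c r) = 0 ∨
        0 < (algebraMap K (HS κ) (-t / c r)).order := by
      intro r hr
      right
      have h6 : -t / c r = c (-r⁻¹) * t := by
        rw [map_neg, map_inv₀, div_eq_mul_inv]
        ring
      rw [h6, hT]
      exact hs _ (neg_ne_zero.2 (inv_ne_zero hr))
    have h7 : algebraMap K (HS κ) t = 0 ∨ 0 < (algebraMap K (HS κ) t).order := by
      right
      rw [ht]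
      exact hs 1 one_ne_zero
    fin_cases i
    · exact h1
    · exact h7
    · exact h5 m hm
    · exact h5 m' hm'
    · exact absurd rfl hi
  · intro i
    have g0 : ∃ q : K, q ≠ 0 ∧ Ld (algebraMap K (HS κ) (Q.eval 0 * q ^ 2)) a := by
      refine ⟨t⁻¹, inv_ne_zero ht0, ?_⟩
      have h5 : Q.eval 0 * t⁻¹ ^ 2 = c a := by
        rw [hQ0]
        field_simp
      rw [h5, hc]
      exact Ld_C a ha
    have g1 : ∃ q : K, q ≠ 0 ∧ Ld (algebraMap K (HS κ) (Q.eval t * q ^ 2)) b := by
      refine ⟨(2 * c a * c d * t)⁻¹, inv_ne_zero (by positivity), ?_⟩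
      have h5 : Q.eval t * (2 * c a * c d * t)⁻¹ ^ 2 = c b := by
        rw [hQt]
        field_simp
      rw [h5, hc]
      exact Ld_C b hb
    have g2 : ∀ r s : κ, r ≠ 0 → s ≠ 0 → c r + 1 = 2 * c s →
        ∃ q : K, q ≠ 0 ∧ Ld (algebraMap K (HS κ) (P.eval (-t / c r) * q ^ 2)) s := by
      intro r s hr hs hrs
      have cr : c r ≠ 0 := (map_ne_zero c).2 hr
      refine ⟨c r / (2 * t), div_ne_zero cr (mul_ne_zero h2 ht0), ?_⟩
      have h5 : P.eval (-t / c r) * (c r / (2 * t)) ^ 2 =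
          c s * (c 1 + c (-1) * t) * (c 1 + c (-r⁻¹) * t) := by
        have h6 : c s = (c r + 1) / 2 := by
          rw [hrs]
          field_simp
        rw [hPe, ← hlin1, h6, map_neg, map_inv₀, map_one]
        field_simp
        ring
      rw [h5, map_mul, map_mul, hcT, hcT, hc]
      have h7 := Ld_mul (mul_ne_zero hs hone) hone (Ld_mul hs hone (Ld_C s hs)
        (Ld_lin (1 : κ) (-1) hone)) (Ld_lin (1 : κ) (-r⁻¹) hone)
      rwa [mul_one, mul_one] at h7
    have g4 : ∃ q : K, q ≠ 0 ∧ Ld (algebraMap K (HS κ) (Q.eval (-1) * q ^ 2)) (a * m * m') := by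
      refine ⟨1, one_ne_zero, ?_⟩
      rw [one_pow, mul_one, hQ1, map_mul, map_mul, hcT, hcT, hc]
      have h7 := Ld_mul (mul_ne_zero ha (neg_ne_zero.2 hm)) (neg_ne_zero.2 hm')
        (Ld_mul ha (neg_ne_zero.2 hm) (Ld_C a ha) (Ld_lin (-m) 1 (neg_ne_zero.2 hm)))
        (Ld_lin (-m') 1 (neg_ne_zero.2 hm'))
      have h8 : a * -m * -m' = a * m * m' := by ring
      rwa [h8] at h7
    fin_cases i
    · exact g0
    · exact g1
    · exact g2 m d hm hd c3
    · refine g2 m' (a * b * d) hm' (mul_ne_zero (mul_ne_zero ha hb) hd) ?_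
      rw [c4, map_mul, map_mul]
      ring
    · exact g4
  · refine ⟨1, one_ne_zero, ?_⟩
    rw [one_pow, mul_one, hQl, hc]
    exact Ld_C _ (mul_ne_zero (mul_ne_zero ha hm) hm')

end

theorem pf_DAT : T_DAT := by
  intro hNZ _ hc ht
  obtain ⟨-, ha, hb, hd, hm, hm', -, -⟩ := hNZ
  have : CharZero Kap := algebraRat.charZero _
  exact key cK tK aK bK dK m3 m4 hc ht ha hb hd hm hm' (by unfold m3 dK; ring)
    (by unfold m4; ring) PK QK rfl rfl

end Pool.Agent.H81.UT
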