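import Pool.Agent.H12.UT.Targets2

/-!
# MP_8b378c_ag, universal torsors, row SQ: square roots of Hahn series
-/

set_option autoImplicit false

open Polynomial
open Pool.Agent.H12.UT

namespace Pool.Agent.H81.UT

/-- the square root of one plus a series of positive order -/
theorem sq_one_add {κ : Type} [Field κ] [CharZero κ] (h : HS κ) (hh : 0 < h.orderTop) :
    IsSquare (1 + h) := by
  have hB : (PowerSeries.binomialSeries κ (1 / 2 : ℚ)) * (PowerSeries.binomialSeries κ (1 / 2 : ℚ))
      = 1 + PowerSeries.X := by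
    rw [← PowerSeries.binomialSeries_add]
    have h1 : (1 / 2 + 1 / 2 : ℚ) = ((1 : ℕ) : ℚ) := by norm_num
    rw [h1, PowerSeries.binomialSeries_nat, pow_one]
  refine ⟨PowerSeries.heval h (PowerSeries.binomialSeries κ (1 / 2 : ℚ)), ?_⟩
  rw [← map_mul, hB, map_add, map_one, PowerSeries.heval_X h hh]

/-- a series with coefficients vanishing at non-positive exponents has positive order -/
theorem orderTop_pos {κ : Type} [Field κ] (h : HS κ) (hc : ∀ x : ℝ, x ≤ 0 → h.coeff x = 0) :
    0 < h.orderTop := by
  by_cases h0 : h = 0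
  · rw [h0, HahnSeries.orderTop_zero]
    exact WithTop.top_pos
  · have h1 := HahnSeries.order_eq_orderTop_of_ne_zero h0
    rw [← h1]
    have h2 : 0 < h.order := by
      by_contra hle
      push Not at hle
      have h3 := hc _ hle
      rw [← HahnSeries.leadingCoeff_eq] at h3
      exact (HahnSeries.leadingCoeff_ne_zero.2 h0) h3
    exact WithTop.coe_pos.2 h2

theorem pf_SQ : T_SQ := by
  intro κ _ _ f r hf hr
  have hl : f.leadingCoeff ≠ 0 := HahnSeries.leadingCoeff_ne_zero.2 hf
  have hr0 : r ≠ 0 := by
    rintro rfl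
    apply hl
    rw [hr, zero_pow two_ne_zero]
  have hr2 : r ^ 2 ≠ 0 := pow_ne_zero 2 hr0
  set h : HS κ := HahnSeries.single (-f.order) ((r ^ 2)⁻¹) * f - 1 with hdef
  have hpos : 0 < h.orderTop := by
    apply orderTop_pos
    intro x hx
    rw [hdef, HahnSeries.coeff_sub, HahnSeries.coeff_single_mul, sub_neg_eq_add]
    rcases hx.lt_or_eq with hx | hx
    · rw [HahnSeries.coeff_eq_zero_of_lt_order (by linarith), mul_zero, HahnSeries.coeff_one,
        if_neg hx.ne, sub_zero]
    · rw [hx, zero_add, ← HahnSeries.leadingCoeff_eq, hr, inv_mul_cancel₀ hr2,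
        HahnSeries.coeff_one, if_pos rfl, sub_self]
  obtain ⟨s, hs⟩ := sq_one_add h hpos
  have hfe : f = HahnSeries.single (f.order) (r ^ 2) * (1 + h) := by
    rw [hdef, add_sub_cancel, ← mul_assoc, HahnSeries.single_mul_single, add_neg_cancel,
      mul_inv_cancel₀ hr2]
    exact (one_mul f).symm
  refine ⟨HahnSeries.single (f.order / 2) r * s, ?_⟩
  calc f = HahnSeries.single (f.order) (r ^ 2) * (1 + h) := hfe
    _ = (HahnSeries.single (f.order / 2) r * HahnSeries.single (f.order / 2) r) * (s * s) := by
        rw [HahnSeries.single_mul_single, add_halves, ← pow_two r, hs]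
    _ = _ := by ring

end Pool.Agent.H81.UT
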